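import Pool.Agent.Work.MP_5cb6f7_nt.Density

namespace Pool.Agent.Results.MP_5cb6f7_nt.MoreThanHalf

/-- Fermat numbers. -/
def F (m : ℕ) : ℕ := 2 ^ 2 ^ m + 1

/-- The numbers `G_m = F_m * 2^(F_m - 1) - 1`. -/
def G (m : ℕ) : ℕ := F m * 2 ^ (F m - 1) - 1

open scoped Classical in
/-- More than half of the numbers `G_m` are composite: for every `N`, at least
`362848 * floor(N / 720720) - 800000` of the `m < N`, and at least `0.503 N` of them once
`N ≥ 3 * 10^9`, have a prime factor `q < 4 * 10^6` of `G_m` with `q < G_m`. -/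
theorem result :
    (∀ N : ℕ, 362848 * (N / 720720) ≤ ((Finset.range N).filter
      (fun m => ∃ q, q.Prime ∧ q < 4000000 ∧ q ∣ G m ∧ q < G m)).card + 800000) ∧
    (∀ N : ℕ, 3 * 10 ^ 9 ≤ N → 503 * N ≤ 1000 * ((Finset.range N).filter
      (fun m => ∃ q, q.Prime ∧ q < 4000000 ∧ q ∣ G m ∧ q < G m)).card) ∧
    (∀ m q : ℕ, q.Prime → q ∣ G m → q < G m → ¬ (G m).Prime) := by
  have hG : ∀ m, G m = Pool.Agent.Work.MP_5cb6f7_nt.H m - 1 := by
    intro m
    unfold G F Pool.Agent.Work.MP_5cb6f7_nt.H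
    rw [Nat.add_sub_cancel]
  have h1 : ∀ N : ℕ, 362848 * (N / 720720) ≤ ((Finset.range N).filter
      (fun m => ∃ q, q.Prime ∧ q < 4000000 ∧ q ∣ G m ∧ q < G m)).card + 800000 := by
    intro N
    have h := Pool.Agent.Work.MP_5cb6f7_nt.main N
    simp only [← hG] at h
    exact h
  refine ⟨h1, ?_, ?_⟩
  · intro N hN
    have h := h1 N
    set c := ((Finset.range N).filter
      (fun m => ∃ q, q.Prime ∧ q < 4000000 ∧ q ∣ G m ∧ q < G m)).card with hc
    clear_value c
    omega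
  · intro m q hq hd hlt hp
    rcases (Nat.dvd_prime hp).mp hd with h | h
    · exact hq.one_lt.ne' h
    · omega

end Pool.Agent.Results.MP_5cb6f7_nt.MoreThanHalf
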